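import Mathlib
import Pool.Agent.Lead.NearAP

set_option autoImplicit false

namespace Pool.Agent.Results.MP_52931c_nt.Disproof

/-- `A` nearly contains a `(t,d,w)`-progression: for some `b` each block
`[b + i d, b + i d + w]` with `1 ≤ i ≤ t - 1` meets `A`. -/
def NearlyContains (A : Finset ℕ) (t d w : ℕ) : Prop :=
  ∃ b : ℕ, ∀ i ∈ Finset.Icc 1 (t - 1), ∃ a ∈ A, b + i * d ≤ a ∧ a ≤ b + i * d + w

/-- `(d,w)` is admissible for `n`: `d` is a power of two and `w / d < d / n`. -/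
def Admissible (n d w : ℕ) : Prop :=
  (∃ j : ℕ, d = 2 ^ j) ∧ (w : ℝ) / d < (d : ℝ) / n

/-- `g t n` is the largest grid value `m / n` (`0 ≤ m ≤ n`) such that some `A ⊆ [1,n]` with
`|A| ≥ (m / n) n` nearly contains no `(t,d,w)`-progression with `(d,w)` admissible for `n`. -/
noncomputable def g (t n : ℕ) : ℝ :=
  sSup {x : ℝ | (∃ m : ℕ, m ≤ n ∧ x = (m : ℝ) / n) ∧
    ∃ A : Finset ℕ, A ⊆ Finset.Icc 1 n ∧ x * n ≤ A.card ∧
      ∀ d w : ℕ, Admissible n d w → ¬ NearlyContains A t d w}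

open Pool.Agent.Lead.NearAP in
theorem result :
    ∀ t : ℕ, 3 ≤ t → ∀ n₀ : ℕ, ∃ n : ℕ, n₀ ≤ n ∧ 1 / Real.log n ^ 3 ≤ g t n := by
  intro t ht n₀
  set M := n₀ + 11 with hM
  obtain ⟨c, hc⟩ := big_class M
  have hn0 : n₀ ≤ 2 ^ (2 ^ M) := by
    have a1 : M < 2 ^ M := Nat.lt_two_pow_self
    have a2 : 2 ^ M < 2 ^ (2 ^ M) := Nat.lt_two_pow_self
    omega
  refine ⟨2 ^ (2 ^ M), hn0, ?_⟩
  set A := (Finset.Icc 1 (2 ^ (2 ^ M))).filter (fun a => cls M a = c) with hA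
  have hpos : (0 : ℝ) < ((2 ^ (2 ^ M) : ℕ) : ℝ) := by positivity
  have hsub : A ⊆ Finset.Icc 1 (2 ^ (2 ^ M)) := Finset.filter_subset _ _
  have hcard : A.card ≤ 2 ^ (2 ^ M) := by
    have := Finset.card_le_card hsub
    simpa using this
  have hmem : (A.card : ℝ) / ((2 ^ (2 ^ M) : ℕ) : ℝ) ≤ g t (2 ^ (2 ^ M)) := by
    apply le_csSup
    · refine ⟨1, ?_⟩
      rintro x ⟨⟨m, hm, rfl⟩, -⟩
      rw [div_le_one hpos]
      exact_mod_cast hm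
    · refine ⟨⟨A.card, hcard, rfl⟩, A, hsub, ?_, ?_⟩
      · rw [div_mul_cancel₀ _ hpos.ne']
      · rintro d w ⟨⟨j, rfl⟩, hw⟩ ⟨b, hb⟩
        have hw' : w * 2 ^ (2 ^ M) < (2 ^ j) ^ 2 := by
          have hd : (0 : ℝ) < ((2 ^ j : ℕ) : ℝ) := by positivity
          rw [div_lt_div_iff₀ hd hpos] at hw
          have : ((w * 2 ^ (2 ^ M) : ℕ) : ℝ) < (((2 ^ j) ^ 2 : ℕ) : ℝ) := by
            push_cast at hw ⊢
            nlinarith
          exact_mod_cast this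
        obtain ⟨a1, ha1, h1⟩ := hb 1 (by simp; omega)
        obtain ⟨a2, ha2, h2⟩ := hb 2 (by simp; omega)
        rw [hA, Finset.mem_filter, Finset.mem_Icc] at ha1 ha2
        exact no_pair M j w b a1 a2 hw' ha2.1.2 h1 h2 (ha1.2.trans ha2.2.symm)
  refine le_trans ?_ hmem
  have l2 : (0.69 : ℝ) < Real.log 2 := by have := Real.log_two_gt_d9; linarith
  have e1 : Real.log ((2 ^ (2 ^ M) : ℕ) : ℝ) = 2 ^ M * Real.log 2 := by
    push_cast; rw [Real.log_pow]; push_cast; ring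
  have hg : (6 : ℝ) ^ (M + 1) ≤ Real.log ((2 ^ (2 ^ M) : ℕ) : ℝ) ^ 3 := by
    rw [e1, mul_pow, ← pow_mul, mul_comm M 3, pow_mul]
    have h3 : (0.32 : ℝ) ≤ Real.log 2 ^ 3 := by
      have : (0.69 : ℝ) ^ 3 ≤ Real.log 2 ^ 3 := pow_le_pow_left₀ (by norm_num) l2.le 3
      norm_num at this ⊢
      linarith
    have h4 : (6 : ℝ) ^ n₀ ≤ 8 ^ n₀ := pow_le_pow_left₀ (by norm_num) (by norm_num) _
    have h5 : (0 : ℝ) < 8 ^ n₀ := by positivity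
    have h6 : ((2 : ℝ) ^ 3) ^ M = 8 ^ n₀ * 8 ^ 11 := by rw [hM, pow_add]; norm_num
    have h7 : (6 : ℝ) ^ (M + 1) = 6 ^ n₀ * 6 ^ 12 := by rw [hM, add_assoc, pow_add]
    rw [h6, h7]
    nlinarith
  have h8 : (0 : ℝ) < 6 ^ (M + 1) := by positivity
  calc 1 / Real.log ((2 ^ (2 ^ M) : ℕ) : ℝ) ^ 3 ≤ 1 / 6 ^ (M + 1) :=
        one_div_le_one_div_of_le h8 hg
    _ ≤ _ := by
        rw [div_le_div_iff₀ h8 hpos]
        linarith

end Pool.Agent.Results.MP_52931c_nt.Disproof
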